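import Mathlib

/-!
# Decomposing odd-regular graphs into 2-regular subgraphs and edges

Every `(2k+1)`-regular graph on `n` vertices decomposes into at most `n - 1` subgraphs each of
which is 2-regular or a single edge.

Proof: let `F` be a smallest set of edges such that all degrees of `F` are odd.  Then `F` is a
forest, no other edge joins vertices of the same component of `F`, and between two components `A`,
`B` of `F` there are at most `|A| + |B|` edges.  Counting the edges shows that `F` has at least
`k + 1` components.  The other edges form a graph with even degrees at most `2k`, which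
decomposes into `k` 2-regular graphs.
-/

namespace Pool.Agent.Results.MP_b4b0f8_co.OddRegular

open SimpleGraph

variable {V : Type*} [DecidableEq V]

/-! ### Definitions -/

/-- The degree of the vertex `v` in the set `E` of edges. -/
def deg (E : Finset (Sym2 V)) (v : V) : ℕ := (E.filter fun e => v ∈ e).card

/-- The graph formed by the edges in `E` and their ends is 2-regular: every vertex that is incident
with an edge of `E` has degree two. -/
def TwoRegular (E : Finset (Sym2 V)) : Prop := ∀ v, deg E v = 0 ∨ deg E v = 2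

/-- `P` is a decomposition of `G` into 2-regular graphs and single edges: a partition of the set of
edges such that each part is 2-regular or has exactly one element. -/
def IsDecomposition [Fintype V] (G : SimpleGraph V) [DecidableRel G.Adj]
    (P : Finset (Finset (Sym2 V))) : Prop :=
  (∀ E ∈ P, E.Nonempty ∧ (TwoRegular E ∨ E.card = 1)) ∧
  (∀ e, e ∈ G.edgeFinset ↔ ∃ E ∈ P, e ∈ E) ∧
  ∀ E ∈ P, ∀ E' ∈ P, E ≠ E' → Disjoint E E'

/-- The least number of parts of a decomposition into 2-regular graphs and single edges. -/
noncomputable def re [Fintype V] (G : SimpleGraph V) [DecidableRel G.Adj] : ℕ :=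
  sInf {m | ∃ P, IsDecomposition G P ∧ P.card = m}

/-! ### Degrees -/

section Deg

theorem deg_disjUnion {E E' : Finset (Sym2 V)} (h : Disjoint E E') (v : V) :
    deg (E ∪ E') v = deg E v + deg E' v := by
  unfold deg
  rw [Finset.filter_union, Finset.card_union_of_disjoint (h.mono (Finset.filter_subset _ _)
    (Finset.filter_subset _ _))]

theorem deg_sdiff {E E' : Finset (Sym2 V)} (h : E' ⊆ E) (v : V) :
    deg (E \ E') v + deg E' v = deg E v := by
  rw [← deg_disjUnion Finset.sdiff_disjoint, Finset.sdiff_union_of_subset h]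

theorem deg_mono {E E' : Finset (Sym2 V)} (h : E' ⊆ E) (v : V) : deg E' v ≤ deg E v :=
  Finset.card_le_card (Finset.filter_subset_filter _ h)

theorem deg_empty (v : V) : deg (∅ : Finset (Sym2 V)) v = 0 := by simp [deg]

/-- The degrees on a trail. -/
theorem trail_deg {G : SimpleGraph V} {u v : V} {p : G.Walk u v} (hp : p.IsTrail) (x : V) :
    Even (deg p.edges.toFinset x) ↔ (u ≠ v → x ≠ u ∧ x ≠ v) := by
  rw [← hp.even_countP_edges_iff x]
  unfold deg
  rw [List.countP_eq_length_filter, ← List.toFinset_card_of_nodup (hp.edges_nodup.filter _),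
    List.toFinset_filter]
  simp

end Deg

/-! ### Orientations -/

section Orientation

/-- In- and outdegrees of the darts of a walk. -/
theorem walk_balance {G : SimpleGraph V} {u v : V} (p : G.Walk u v) (x : V) :
    (p.darts.countP fun d => d.fst = x) + (if x = v then 1 else 0) =
    (p.darts.countP fun d => d.snd = x) + (if x = u then 1 else 0) := by
  induction p with
  | nil => simp
  | @cons u w v h p ih =>
    rw [Walk.darts_cons, List.countP_cons, List.countP_cons]
    simp only [decide_eq_true_eq]
    rw [show (if u = x then 1 else 0) = (if x = u then 1 else 0) by simp [eq_comm],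
      show (if w = x then 1 else 0) = (if x = w then 1 else 0) by simp [eq_comm]]
    omega

/-- A closed trail in a set of edges with even degrees. -/
theorem exists_closed_trail [Fintype V] (E : Finset (Sym2 V)) (hdiag : ∀ e ∈ E, ¬ e.IsDiag)
    (heven : ∀ v, Even (deg E v)) (hne : E.Nonempty) :
    ∃ (u : V) (p : (fromEdgeSet (E : Set (Sym2 V))).Walk u u), p.IsTrail ∧ p.edges ≠ [] := by
  classical
  set H := fromEdgeSet (E : Set (Sym2 V)) with hH
  have hadj : ∀ u v, H.Adj u v ↔ s(u, v) ∈ E := by
    intro u v
    rw [hH, fromEdgeSet_adj]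
    constructor
    · exact fun h => h.1
    · intro h
      exact ⟨h, fun huv => hdiag _ h (by rw [huv]; exact Sym2.mk_isDiag_iff.2 rfl)⟩
  obtain ⟨e, he⟩ := hne
  induction e using Sym2.ind with
  | _ a b =>
  -- a longest trail starting at `a`
  have hbound : ∀ (n : ℕ), (∃ (v : V) (p : H.Walk a v), p.IsTrail ∧ p.length = n) → n ≤ E.card := by
    rintro n ⟨v, p, hp, rfl⟩
    rw [← Walk.length_edges, ← List.toFinset_card_of_nodup hp.edges_nodup]
    apply Finset.card_le_card
    intro e he
    rw [List.mem_toFinset] at he
    have := p.edges_subset_edgeSet he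
    rw [hH, edgeSet_fromEdgeSet] at this
    exact this.1
  obtain ⟨n, ⟨v, p, hp, hpn⟩, hmax⟩ : ∃ n, (∃ (v : V) (p : H.Walk a v), p.IsTrail ∧ p.length = n) ∧
      ∀ m, (∃ (v : V) (p : H.Walk a v), p.IsTrail ∧ p.length = m) → m ≤ n := by
    have hex : ∃ n, ∃ (v : V) (p : H.Walk a v), p.IsTrail ∧ p.length = n :=
      ⟨0, a, Walk.nil, Walk.IsTrail.nil, rfl⟩
    have := Nat.findGreatest_spec (P := fun n => ∃ (v : V) (p : H.Walk a v),
      p.IsTrail ∧ p.length = n) (hbound _ hex.choose_spec) hex.choose_spec
    refine ⟨_, this, fun m hm => ?_⟩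
    exact Nat.le_findGreatest (hbound m hm) hm
  have hsub : p.edges.toFinset ⊆ E := by
    intro e he
    rw [List.mem_toFinset] at he
    have := p.edges_subset_edgeSet he
    rw [hH, edgeSet_fromEdgeSet] at this
    exact this.1
  -- the trail cannot be extended
  have hext : ∀ w, H.Adj v w → s(v, w) ∈ p.edges := by
    intro w hw
    by_contra hcon
    have h1 : (p.concat hw).IsTrail := by
      rw [Walk.isTrail_def, Walk.edges_concat, List.concat_eq_append, List.nodup_append]
      refine ⟨hp.edges_nodup, List.nodup_singleton _, ?_⟩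
      intro e he e' he' hee
      rw [List.mem_singleton] at he'
      rw [← he', ← hee] at hcon
      exact hcon he
    have h2 := hmax _ ⟨w, p.concat hw, h1, rfl⟩
    rw [Walk.length_concat, hpn] at h2
    omega
  have hdeg : deg p.edges.toFinset v = deg E v := by
    apply le_antisymm (deg_mono hsub v)
    apply Finset.card_le_card
    intro e he
    rw [Finset.mem_filter] at he ⊢
    refine ⟨?_, he.2⟩
    obtain ⟨w, rfl⟩ := Sym2.mem_iff_exists.1 he.2
    exact List.mem_toFinset.2 (hext w ((hadj v w).2 he.1))
  have hav : a = v := by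
    by_contra hne
    have h1 := heven v
    rw [← hdeg, trail_deg hp] at h1
    exact (h1 hne).2 rfl
  subst hav
  refine ⟨a, p, hp, ?_⟩
  intro h1
  have h2 := hext b ((hadj a b).2 he)
  rw [h1] at h2
  exact absurd h2 List.not_mem_nil

/-- An orientation of a set of edges with even degrees in which all in- and outdegrees are
equal. -/
theorem exists_orientation [Fintype V] (n : ℕ) : ∀ E : Finset (Sym2 V), E.card = n →
    (∀ e ∈ E, ¬ e.IsDiag) → (∀ v, Even (deg E v)) → ∃ A : Finset (V × V),
      A.image (fun a => s(a.1, a.2)) = E ∧ Set.InjOn (fun a : V × V => s(a.1, a.2)) A ∧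
      ∀ x, (A.filter fun a => a.1 = x).card = (A.filter fun a => a.2 = x).card := by
  classical
  induction n using Nat.strong_induction_on with
  | _ n ih =>
    intro E hE hdiag heven
    rcases E.eq_empty_or_nonempty with rfl | hne
    · exact ⟨∅, by simp, by simp, by simp⟩
    obtain ⟨u, p, hp, hpne⟩ := exists_closed_trail E hdiag heven hne
    have hsub : p.edges.toFinset ⊆ E := by
      intro e he
      rw [List.mem_toFinset] at he
      have := p.edges_subset_edgeSet he
      rw [edgeSet_fromEdgeSet] at this
      exact this.1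
    have hcard : (E \ p.edges.toFinset).card < n := by
      rw [← hE]
      apply Finset.card_lt_card
      rw [Finset.ssubset_iff_subset_ne]
      refine ⟨Finset.sdiff_subset, fun h => ?_⟩
      rw [Finset.sdiff_eq_self_iff_disjoint] at h
      obtain ⟨e, he⟩ := List.exists_mem_of_ne_nil _ hpne
      have h1 := List.mem_toFinset.2 he
      exact Finset.disjoint_left.1 h (hsub h1) h1
    obtain ⟨A, hA1, hA2, hA3⟩ := ih _ hcard (E \ p.edges.toFinset) rfl
      (fun e he => hdiag e (Finset.mem_sdiff.1 he).1) (fun v => by
        have h1 := deg_sdiff hsub v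
        have h2 := heven v
        have h3 : Even (deg p.edges.toFinset v) := (trail_deg hp v).2 (fun h => absurd rfl h)
        rw [← h1, Nat.even_add] at h2
        exact h2.2 h3)
    -- the darts of the trail
    let D : Finset (V × V) := (p.darts.map fun d => d.toProd).toFinset
    have hDnodup : (p.darts.map fun d => d.toProd).Nodup := by
      have h1 := hp.edges_nodup
      unfold Walk.edges at h1
      apply List.Nodup.of_map (f := fun a : V × V => s(a.1, a.2))
      rw [List.map_map]
      exact h1
    have hDedge : ∀ a ∈ D, s(a.1, a.2) ∈ p.edges.toFinset := by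
      intro a ha
      rw [List.mem_toFinset, List.mem_map] at ha
      obtain ⟨d, hd, rfl⟩ := ha
      rw [List.mem_toFinset]
      exact List.mem_map.2 ⟨d, hd, rfl⟩
    have hAedge : ∀ a ∈ A, s(a.1, a.2) ∈ E \ p.edges.toFinset := by
      intro a ha
      rw [← hA1]
      exact Finset.mem_image_of_mem _ ha
    have hdisj : Disjoint A D := by
      rw [Finset.disjoint_left]
      intro a h1 h2
      exact (Finset.mem_sdiff.1 (hAedge a h1)).2 (hDedge a h2)
    refine ⟨A ∪ D, ?_, ?_, ?_⟩
    · rw [Finset.image_union, hA1]
      have : D.image (fun a => s(a.1, a.2)) = p.edges.toFinset := by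
        ext e
        simp only [Finset.mem_image]
        constructor
        · rintro ⟨a, ha, rfl⟩
          exact hDedge a ha
        · intro he
          rw [List.mem_toFinset] at he
          obtain ⟨d, hd, rfl⟩ := List.mem_map.1 he
          exact ⟨d.toProd, List.mem_toFinset.2 (List.mem_map.2 ⟨d, hd, rfl⟩), rfl⟩
      rw [this, Finset.sdiff_union_of_subset hsub]
    · rw [Finset.coe_union]
      intro a ha b hb hab
      have hab' : s(a.1, a.2) = s(b.1, b.2) := hab
      rcases ha with ha | ha
      · rcases hb with hb | hb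
        · exact hA2 ha hb hab
        · exfalso
          apply (Finset.mem_sdiff.1 (hAedge a ha)).2
          rw [hab']
          exact hDedge b hb
      · rcases hb with hb | hb
        · exfalso
          apply (Finset.mem_sdiff.1 (hAedge b hb)).2
          rw [← hab']
          exact hDedge a ha
        · have h1 := hp.edges_nodup
          unfold Walk.edges at h1
          have ha' := List.mem_map.1 (List.mem_toFinset.1 ha)
          have hb' := List.mem_map.1 (List.mem_toFinset.1 hb)
          obtain ⟨d, hd, rfl⟩ := ha'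
          obtain ⟨d', hd', rfl⟩ := hb'
          have := List.inj_on_of_nodup_map h1 hd hd' hab'
          rw [this]
    · intro x
      have h1 := walk_balance p x
      have hcount : ∀ (f : V × V → V), (D.filter fun a => f a = x).card =
          p.darts.countP fun d => f d.toProd = x := by
        intro f
        rw [List.countP_eq_length_filter]
        have h2 : D.filter (fun a => f a = x) =
            ((p.darts.filter fun d => f d.toProd = x).map fun d => d.toProd).toFinset := by
          ext a
          simp only [D, Finset.mem_filter, List.mem_toFinset, List.mem_map, List.mem_filter,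
            decide_eq_true_eq]
          constructor
          · rintro ⟨⟨d, hd, rfl⟩, h⟩
            exact ⟨d, ⟨hd, h⟩, rfl⟩
          · rintro ⟨d, ⟨hd, h⟩, rfl⟩
            exact ⟨⟨d, hd, rfl⟩, h⟩
        rw [h2, List.toFinset_card_of_nodup, List.length_map]
        exact hDnodup.sublist (List.filter_sublist.map _)
      have h2 := hcount Prod.fst
      have h3 := hcount Prod.snd
      rw [Finset.filter_union, Finset.filter_union, Finset.card_union_of_disjoint
        (hdisj.mono (Finset.filter_subset _ _) (Finset.filter_subset _ _)),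
        Finset.card_union_of_disjoint
        (hdisj.mono (Finset.filter_subset _ _) (Finset.filter_subset _ _)), hA3 x, h2, h3]
      have h4 : (p.darts.countP fun d => d.toProd.1 = x) =
        p.darts.countP fun d => d.toProd.2 = x := by
        have : (p.darts.countP fun d => d.fst = x) = p.darts.countP fun d => d.snd = x := by
          omega
        exact this
      rw [h4]

end Orientation

/-! ### Matrices with equal row and column sums -/

section Birkhoff

/-- A nonnegative integer matrix all of whose row and column sums are `k` is the sum of `k`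
permutation matrices. -/
theorem exists_perms [Fintype V] (k : ℕ) : ∀ a : V → V → ℕ, (∀ x, ∑ y, a x y = k) →
    (∀ y, ∑ x, a x y = k) → ∃ π : Fin k → Equiv.Perm V,
      ∀ x y, (Finset.univ.filter fun i => π i x = y).card = a x y := by
  classical
  induction k with
  | zero =>
    intro a h1 h2
    refine ⟨Fin.elim0, fun x y => ?_⟩
    have := h1 x
    rw [Finset.sum_eq_zero_iff] at this
    rw [this y (Finset.mem_univ y)]
    simp
  | succ k ih =>
    intro a h1 h2
    -- Hall's condition
    have hall : ∀ s : Finset V, s.card ≤ (s.biUnion fun x => Finset.univ.filter fun y =>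
        0 < a x y).card := by
      intro s
      set N := s.biUnion fun x => Finset.univ.filter fun y => 0 < a x y with hN
      have h3 : s.card * (k + 1) = ∑ x ∈ s, ∑ y ∈ N, a x y := by
        rw [← smul_eq_mul, ← Finset.sum_const]
        apply Finset.sum_congr rfl
        intro x hx
        rw [← h1 x]
        symm
        apply Finset.sum_subset (Finset.subset_univ N)
        intro y _ hy
        by_contra h4
        apply hy
        rw [hN, Finset.mem_biUnion]
        exact ⟨x, hx, Finset.mem_filter.2 ⟨Finset.mem_univ y, Nat.pos_of_ne_zero h4⟩⟩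
      have h4 : ∑ x ∈ s, ∑ y ∈ N, a x y ≤ N.card * (k + 1) := by
        rw [Finset.sum_comm, ← smul_eq_mul, ← Finset.sum_const]
        apply Finset.sum_le_sum
        intro y _
        rw [← h2 y]
        exact Finset.sum_le_sum_of_subset (Finset.subset_univ s)
      rw [← h3] at h4
      exact Nat.le_of_mul_le_mul_right h4 (Nat.succ_pos k)
    obtain ⟨f, hf1, hf2⟩ := (Finset.all_card_le_biUnion_card_iff_exists_injective _).1 hall
    let σ : Equiv.Perm V := Equiv.ofBijective f (Finite.injective_iff_bijective.1 hf1)
    have hσ : ∀ x, 0 < a x (σ x) := fun x => (Finset.mem_filter.1 (hf2 x)).2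
    have hle : ∀ x y, (if σ x = y then 1 else 0) ≤ a x y := by
      intro x y
      split_ifs with h
      · rw [← h]
        exact hσ x
      · exact Nat.zero_le _
    obtain ⟨π, hπ⟩ := ih (fun x y => a x y - if σ x = y then 1 else 0)
      (by
        intro x
        have h3 : ∑ y, (a x y - if σ x = y then 1 else 0) + ∑ y, (if σ x = y then 1 else 0) =
            ∑ y, a x y := by
          rw [← Finset.sum_add_distrib]
          exact Finset.sum_congr rfl fun y _ => Nat.sub_add_cancel (hle x y)
        rw [h1 x, Finset.sum_ite_eq Finset.univ (σ x) fun _ => 1,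
          if_pos (Finset.mem_univ _)] at h3
        omega)
      (by
        intro y
        have h3 : ∑ x, (a x y - if σ x = y then 1 else 0) + ∑ x, (if σ x = y then 1 else 0) =
            ∑ x, a x y := by
          rw [← Finset.sum_add_distrib]
          exact Finset.sum_congr rfl fun x _ => Nat.sub_add_cancel (hle x y)
        have h4 : ∑ x, (if σ x = y then 1 else 0) = 1 := by
          rw [Finset.sum_eq_single (σ.symm y)]
          · simp
          · intro b _ hb
            rw [if_neg]
            rintro rfl
            simp at hb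
          · simp
        rw [h2 y, h4] at h3
        omega)
    refine ⟨Fin.cons σ π, fun x y => ?_⟩
    have h3 := hπ x y
    have h4 := hle x y
    rw [Finset.card_filter] at h3 ⊢
    rw [Fin.sum_univ_succ]
    simp only [Fin.cons_zero, Fin.cons_succ]
    rw [h3]
    split_ifs at h4 ⊢ <;> omega

end Birkhoff

/-! ### Even graphs -/

section Even

/-- **Petersen.** A set of edges with even degrees at most `2k` is the union of `k` disjoint
2-regular sets. -/
theorem even_decomposition [Fintype V] (k : ℕ) (E : Finset (Sym2 V)) (hdiag : ∀ e ∈ E, ¬ e.IsDiag)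
    (heven : ∀ v, Even (deg E v)) (hle : ∀ v, deg E v ≤ 2 * k) :
    ∃ C : Fin k → Finset (Sym2 V), (∀ i, TwoRegular (C i)) ∧ (∀ e, e ∈ E ↔ ∃ i, e ∈ C i) ∧
      ∀ i j, i ≠ j → Disjoint (C i) (C j) := by
  classical
  obtain ⟨A, hA1, hA2, hA3⟩ := exists_orientation _ E rfl hdiag heven
  have hAne : ∀ a ∈ A, a.1 ≠ a.2 := by
    intro a ha h
    apply hdiag s(a.1, a.2)
    · rw [← hA1]
      exact Finset.mem_image_of_mem _ ha
    · exact Sym2.mk_isDiag_iff.2 h
  have hAanti : ∀ x y, (x, y) ∈ A → (y, x) ∉ A := by
    intro x y h1 h2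
    have h3 := hA2 h1 h2 (Sym2.eq_swap)
    have h4 : x = y := congrArg Prod.fst h3
    exact hAne _ h1 h4
  -- degrees and outdegrees
  have hdeg : ∀ x, deg E x = 2 * (A.filter fun a => a.1 = x).card := by
    intro x
    have h1 : E.filter (fun e => x ∈ e) = (A.filter fun a => a.1 = x ∨ a.2 = x).image
        fun a => s(a.1, a.2) := by
      ext e
      rw [← hA1]
      simp only [Finset.mem_filter, Finset.mem_image]
      constructor
      · rintro ⟨⟨a, ha, rfl⟩, h⟩
        refine ⟨a, ⟨ha, ?_⟩, rfl⟩
        rcases Sym2.mem_iff.1 h with h | h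
        · exact Or.inl h.symm
        · exact Or.inr h.symm
      · rintro ⟨a, ⟨ha, h⟩, rfl⟩
        refine ⟨⟨a, ha, rfl⟩, ?_⟩
        rcases h with h | h
        · exact Sym2.mem_iff.2 (Or.inl h.symm)
        · exact Sym2.mem_iff.2 (Or.inr h.symm)
    unfold deg
    rw [h1, Finset.card_image_of_injOn (hA2.mono (by
      intro a ha
      exact (Finset.mem_filter.1 ha).1)), Finset.filter_or, Finset.card_union_of_disjoint,
      ← hA3 x]
    · ring
    · rw [Finset.disjoint_left]
      intro a h2 h3
      rw [Finset.mem_filter] at h2 h3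
      exact hAne a h2.1 (h2.2.trans h3.2.symm)
  have hout : ∀ x, (A.filter fun a => a.1 = x).card ≤ k := by
    intro x
    have h1 := hdeg x
    have h2 := hle x
    omega
  -- the matrix
  let M : V → V → ℕ := fun x y => if x = y then k - (A.filter fun a => a.1 = x).card
    else if (x, y) ∈ A then 1 else 0
  have hsumA : ∀ x, ∑ y, (if (x, y) ∈ A then 1 else 0) = (A.filter fun a => a.1 = x).card := by
    intro x
    rw [← Finset.card_filter]
    apply Finset.card_bij (fun y _ => (x, y))
    · intro y hy
      exact Finset.mem_filter.2 ⟨(Finset.mem_filter.1 hy).2, rfl⟩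
    · intro y _ y' _ h
      exact congrArg Prod.snd h
    · intro a ha
      obtain ⟨h1, h2⟩ := Finset.mem_filter.1 ha
      refine ⟨a.2, Finset.mem_filter.2 ⟨Finset.mem_univ _, ?_⟩, ?_⟩
      · rw [← h2]
        exact h1
      · rw [← h2]
  have hsumA' : ∀ y, ∑ x, (if (x, y) ∈ A then 1 else 0) = (A.filter fun a => a.2 = y).card := by
    intro y
    rw [← Finset.card_filter]
    apply Finset.card_bij (fun x _ => (x, y))
    · intro x hx
      exact Finset.mem_filter.2 ⟨(Finset.mem_filter.1 hx).2, rfl⟩
    · intro x _ x' _ h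
      exact congrArg Prod.fst h
    · intro a ha
      obtain ⟨h1, h2⟩ := Finset.mem_filter.1 ha
      refine ⟨a.1, Finset.mem_filter.2 ⟨Finset.mem_univ _, ?_⟩, ?_⟩
      · rw [← h2]
        exact h1
      · rw [← h2]
  have hM : ∀ x y, M x y = (if x = y then k - (A.filter fun a => a.1 = x).card else 0) +
      if (x, y) ∈ A then 1 else 0 := by
    intro x y
    simp only [M]
    split_ifs with h1 h2
    · exact absurd h1 (hAne _ h2)
    · rfl
    · rfl
    · rfl
  obtain ⟨π, hπ⟩ := exists_perms k M
    (by
      intro x
      simp only [hM]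
      rw [Finset.sum_add_distrib, hsumA, Finset.sum_ite_eq Finset.univ x fun _ => _,
        if_pos (Finset.mem_univ _)]
      have := hout x
      omega)
    (by
      intro y
      simp only [hM]
      rw [Finset.sum_add_distrib, hsumA', ← hA3 y]
      rw [Finset.sum_eq_single y (by intro b _ hb; rw [if_neg hb]) (by simp), if_pos rfl]
      have := hout y
      omega)
  -- arcs used by the permutations
  have hmem : ∀ i x, π i x ≠ x → (x, π i x) ∈ A := by
    intro i x hx
    have h1 := hπ x (π i x)
    have h2 : 0 < (Finset.univ.filter fun j => π j x = π i x).card :=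
      Finset.card_pos.2 ⟨i, Finset.mem_filter.2 ⟨Finset.mem_univ i, rfl⟩⟩
    rw [h1, hM, if_neg (Ne.symm hx)] at h2
    by_contra h3
    rw [if_neg h3] at h2
    exact lt_irrefl _ h2
  have huniq : ∀ i j x, π i x ≠ x → π i x = π j x → i = j := by
    intro i j x hx hij
    have h1 := hπ x (π i x)
    rw [hM, if_neg (Ne.symm hx), if_pos (hmem i x hx)] at h1
    have h2 := Finset.card_le_one.1 h1.le i (by simp) j (by simp [hij])
    exact h2
  have hedge : ∀ i j x y, π i x ≠ x → π j y ≠ y → s(x, π i x) = s(y, π j y) →
      x = y ∧ i = j := by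
    intro i j x y hx hy h
    have h1 := hA2 (hmem i x hx) (hmem j y hy) h
    have h2 : x = y := congrArg Prod.fst h1
    have h3 : π i x = π j y := congrArg Prod.snd h1
    subst h2
    exact ⟨rfl, huniq i j x hx h3⟩
  let C : Fin k → Finset (Sym2 V) := fun i =>
    (Finset.univ.filter fun x => π i x ≠ x).image fun x => s(x, π i x)
  have hC : ∀ i e, e ∈ C i ↔ ∃ x, π i x ≠ x ∧ s(x, π i x) = e := by
    intro i e
    simp [C]
  refine ⟨C, ?_, ?_, ?_⟩
  · intro i v
    by_cases hv : π i v = v
    · left
      unfold deg
      rw [Finset.card_eq_zero, Finset.filter_eq_empty_iff]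
      intro e he hve
      obtain ⟨x, hx, rfl⟩ := (hC i e).1 he
      rcases Sym2.mem_iff.1 hve with h | h
      · exact hx (h ▸ hv)
      · have h1 : x = v := (π i).injective (h.symm.trans hv.symm)
        exact hx (h1 ▸ hv)
    · right
      unfold deg
      have hv' : π i ((π i).symm v) ≠ (π i).symm v := by
        rw [Equiv.apply_symm_apply]
        intro h
        apply hv
        conv_lhs => rw [h]
        rw [Equiv.apply_symm_apply]
      have h1 : (C i).filter (fun e => v ∈ e) = {s(v, π i v), s((π i).symm v, v)} := by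
        ext e
        rw [Finset.mem_filter, hC, Finset.mem_insert, Finset.mem_singleton]
        constructor
        · rintro ⟨⟨x, hx, rfl⟩, h⟩
          rcases Sym2.mem_iff.1 h with h | h
          · left
            rw [h]
          · right
            rw [h, Equiv.symm_apply_apply]
        · rintro (rfl | rfl)
          · exact ⟨⟨v, hv, rfl⟩, Sym2.mem_mk_left _ _⟩
          · refine ⟨⟨(π i).symm v, hv', ?_⟩, Sym2.mem_mk_right _ _⟩
            rw [Equiv.apply_symm_apply]
      rw [h1, Finset.card_pair]
      intro h
      have h2 := (hedge i i v ((π i).symm v) hv hv' (by rw [Equiv.apply_symm_apply]; exact h)).1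
      rw [← h2] at hv'
      apply hv
      have h3 := congrArg (π i) h2
      rw [Equiv.apply_symm_apply] at h3
      exact h3
  · intro e
    constructor
    · intro he
      rw [← hA1] at he
      obtain ⟨a, ha, rfl⟩ := Finset.mem_image.1 he
      have h1 := hπ a.1 a.2
      rw [hM, if_pos (show (a.1, a.2) ∈ A from ha)] at h1
      have h2 : 0 < (Finset.univ.filter fun i => π i a.1 = a.2).card := by omega
      obtain ⟨i, hi⟩ := Finset.card_pos.1 h2
      have hi' := (Finset.mem_filter.1 hi).2
      refine ⟨i, (hC i _).2 ⟨a.1, ?_, ?_⟩⟩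
      · rw [hi']
        exact (hAne a ha).symm
      · rw [hi']
    · rintro ⟨i, hi⟩
      obtain ⟨x, hx, rfl⟩ := (hC i e).1 hi
      rw [← hA1]
      exact Finset.mem_image.2 ⟨_, hmem i x hx, rfl⟩
  · intro i j hij
    rw [Finset.disjoint_left]
    intro e h1 h2
    obtain ⟨x, hx, rfl⟩ := (hC i e).1 h1
    obtain ⟨y, hy, h3⟩ := (hC j _).1 h2
    exact hij (hedge i j x y hx hy h3.symm).2

end Even

/-! ### Forests -/

section Forest

omit [DecidableEq V] in
/-- The degree sum of a forest. -/
theorem forest_sum [Fintype V] (H : SimpleGraph V) [DecidableRel H.Adj]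
    [Fintype H.ConnectedComponent] (hH : H.IsAcyclic) :
    ∑ v, H.degree v + 2 * Fintype.card H.ConnectedComponent = 2 * Fintype.card V := by
  classical
  have hC : ∀ C : H.ConnectedComponent,
      ∑ v ∈ Finset.univ.filter (fun v => H.connectedComponentMk v = C), H.degree v + 2 =
      2 * (Finset.univ.filter (fun v => H.connectedComponentMk v = C)).card := by
    intro C
    have hmem : ∀ v, v ∈ Finset.univ.filter (fun v => H.connectedComponentMk v = C) ↔
        v ∈ C := by
      intro v
      rw [Finset.mem_filter]
      exact ⟨fun h => h.2, fun h => ⟨Finset.mem_univ _, h⟩⟩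
    have hT := hH.isTree_connectedComponent C
    have h1 := hT.card_edgeFinset
    have h2 := C.toSimpleGraph.sum_degrees_eq_twice_card_edges
    have h3 : ∀ v : C, C.toSimpleGraph.degree v = H.degree v.1 := by
      intro v
      rw [← card_neighborFinset_eq_degree, ← card_neighborFinset_eq_degree]
      apply Finset.card_bij (fun w _ => w.1)
      · intro w hw
        rw [mem_neighborFinset] at hw ⊢
        exact (C.toSimpleGraph_adj v.2 w.2).1 hw
      · intro w _ w' _ h
        exact Subtype.ext h
      · intro w hw
        rw [mem_neighborFinset] at hw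
        have hwC : w ∈ C := by
          have h4 : H.connectedComponentMk v.1 = C := v.2
          have h5 : H.connectedComponentMk w = H.connectedComponentMk v.1 :=
            ConnectedComponent.eq.2 hw.symm.reachable
          exact h5.trans h4
        refine ⟨⟨w, hwC⟩, ?_, rfl⟩
        rw [mem_neighborFinset]
        exact (C.toSimpleGraph_adj v.2 hwC).2 hw
    have h4 : ∑ v ∈ Finset.univ.filter (fun v => H.connectedComponentMk v = C), H.degree v =
        ∑ v : C, H.degree v.1 := Finset.sum_subtype _ hmem _
    have h5 : Fintype.card C =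
        (Finset.univ.filter (fun v => H.connectedComponentMk v = C)).card :=
      Fintype.card_of_subtype _ hmem
    rw [h4, ← h5, ← h1, ← Finset.sum_congr rfl (fun v _ => h3 v), h2]
    ring
  have h1 : ∑ v, H.degree v = ∑ C : H.ConnectedComponent,
      ∑ v ∈ Finset.univ.filter (fun v => H.connectedComponentMk v = C), H.degree v :=
    (Finset.sum_fiberwise Finset.univ (fun v => H.connectedComponentMk v) fun v =>
      H.degree v).symm
  have h2 : Fintype.card V = ∑ C : H.ConnectedComponent,
      (Finset.univ.filter (fun v => H.connectedComponentMk v = C)).card :=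
    Finset.card_eq_sum_card_fiberwise (fun _ _ => Finset.mem_univ _)
  rw [h1, h2, Finset.mul_sum, ← Finset.card_univ, mul_comm 2, ← smul_eq_mul, ← Finset.sum_const,
    ← Finset.sum_add_distrib]
  exact Finset.sum_congr rfl fun C _ => hC C

end Forest

/-! ### A counting lemma -/

section Count

omit [DecidableEq V] in
/-- A set of pairs in `A × B` such that disjoint pairs have adjacent first entries and adjacent
second entries has at most `|A| + |B|` elements, if there are no triangles and `4`-cycles. -/
theorem count_pairs (A B : Finset V) (S : Finset (V × V)) (hS : ∀ p ∈ S, p.1 ∈ A ∧ p.2 ∈ B)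
    (adj : V → V → Prop) (hsymm : ∀ x y, adj x y → adj y x)
    (tri : ∀ x y z, adj x y → adj y z → adj x z → False)
    (c4 : ∀ x y z w, adj x y → adj y z → adj z w → adj w x → x ≠ z → y ≠ w → False)
    (star : ∀ p ∈ S, ∀ q ∈ S, p.1 ≠ q.1 → p.2 ≠ q.2 → adj p.1 q.1 ∧ adj p.2 q.2) :
    S.card ≤ A.card + B.card := by
  classical
  rcases S.eq_empty_or_nonempty with rfl | ⟨⟨u0, w0⟩, h0⟩
  · simp
  let R := S.filter fun p => p.1 = u0
  let C := S.filter fun p => p.2 = w0 ∧ p.1 ≠ u0
  let D := S.filter fun p => p.1 ≠ u0 ∧ p.2 ≠ w0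
  have hSle : S.card ≤ R.card + C.card + D.card := by
    have h1 : S ⊆ R ∪ C ∪ D := by
      intro p hp
      simp only [R, C, D, Finset.mem_union, Finset.mem_filter]
      by_cases h1 : p.1 = u0 <;> by_cases h2 : p.2 = w0 <;> simp [hp, h1, h2]
    exact (Finset.card_le_card h1).trans ((Finset.card_union_le _ _).trans
      (Nat.add_le_add_right (Finset.card_union_le _ _) _))
  have hu0 := (hS _ h0).1
  have hw0 := (hS _ h0).2
  have hR : R.card ≤ B.card := by
    apply Finset.card_le_card_of_injOn Prod.snd
    · intro p hp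
      exact (hS p (Finset.mem_filter.1 hp).1).2
    · intro p hp q hq h
      exact Prod.ext ((Finset.mem_filter.1 hp).2.trans (Finset.mem_filter.1 hq).2.symm) h
  have hC : C.card + 1 ≤ A.card := by
    rw [← Finset.card_erase_add_one hu0]
    apply Nat.add_le_add_right
    apply Finset.card_le_card_of_injOn Prod.fst
    · intro p hp
      have h1 := Finset.mem_filter.1 hp
      exact Finset.mem_erase.2 ⟨h1.2.2, (hS p h1.1).1⟩
    · intro p hp q hq h
      exact Prod.ext h ((Finset.mem_filter.1 hp).2.1.trans (Finset.mem_filter.1 hq).2.1.symm)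
  have hD0 : ∀ p ∈ D, p ∈ S ∧ p.1 ≠ u0 ∧ p.2 ≠ w0 ∧ adj p.1 u0 ∧ adj p.2 w0 := by
    intro p hp
    obtain ⟨h1, h2, h3⟩ := Finset.mem_filter.1 hp
    have h4 := star p h1 _ h0 h2 h3
    exact ⟨h1, h2, h3, h4.1, h4.2⟩
  have hDint : ∀ p ∈ D, ∀ q ∈ D, p.1 = q.1 ∨ p.2 = q.2 := by
    intro p hp q hq
    by_contra hcon
    push Not at hcon
    obtain ⟨h1, h2, h3, h4, h5⟩ := hD0 p hp
    obtain ⟨h1', h2', h3', h4', h5'⟩ := hD0 q hq
    have h6 := star p h1 q h1' hcon.1 hcon.2
    exact tri p.1 q.1 u0 h6.1 h4' h4
  rcases Nat.lt_or_ge 1 D.card with hD1 | hD1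
  swap
  · omega
  obtain ⟨p, hp, q, hq, hpq⟩ := Finset.one_lt_card.1 hD1
  obtain ⟨p1, p2, p3, p4, p5⟩ := hD0 p hp
  obtain ⟨q1, q2, q3, q4, q5⟩ := hD0 q hq
  rcases hDint p hp q hq with h | h
  · -- the same first entry
    have h2 : p.2 ≠ q.2 := fun h' => hpq (Prod.ext h h')
    have hR1 : R.card ≤ 1 := by
      rw [Finset.card_le_one]
      have hone : ∀ r ∈ R, r = (u0, w0) := by
        intro r hr
        obtain ⟨r1, r2⟩ := Finset.mem_filter.1 hr
        by_contra hne
        have r3 : r.2 ≠ w0 := fun h' => hne (Prod.ext r2 h')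
        have hr1p : r.1 ≠ p.1 := by
          rw [r2]
          exact p2.symm
        have hr1q : r.1 ≠ q.1 := by
          rw [r2]
          exact q2.symm
        by_cases h3 : r.2 = p.2
        · have h4 := (star r r1 q q1 hr1q (by rw [h3]; exact h2)).2
          rw [h3] at h4
          exact tri p.2 q.2 w0 h4 q5 p5
        · by_cases h4 : r.2 = q.2
          · have h5 := (star r r1 p p1 hr1p (by rw [h4]; exact h2.symm)).2
            rw [h4] at h5
            exact tri q.2 p.2 w0 h5 p5 q5
          · have h5 := (star r r1 p p1 hr1p h3).2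
            have h6 := (star r r1 q q1 hr1q h4).2
            exact c4 r.2 p.2 w0 q.2 h5 p5 (hsymm _ _ q5) (hsymm _ _ h6) r3 h2
      intro r hr r' hr'
      rw [hone r hr, hone r' hr']
    have hDB : D.card + 1 ≤ B.card := by
      rw [← Finset.card_erase_add_one hw0]
      apply Nat.add_le_add_right
      have hsame : ∀ r ∈ D, r.1 = p.1 := by
        intro r hr
        by_contra hne
        have h3 := (hDint r hr p hp).resolve_left hne
        have h4 := (hDint r hr q hq).resolve_left (by rw [← h]; exact hne)
        exact h2 (h3.symm.trans h4)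
      apply Finset.card_le_card_of_injOn Prod.snd
      · intro r hr
        have h3 := hD0 r hr
        exact Finset.mem_erase.2 ⟨h3.2.2.1, (hS r h3.1).2⟩
      · intro r hr r' hr' h'
        exact Prod.ext ((hsame r hr).trans (hsame r' hr').symm) h'
    omega
  · -- the same second entry
    have h2 : p.1 ≠ q.1 := fun h' => hpq (Prod.ext h' h)
    have hC1 : C = ∅ := by
      rw [Finset.eq_empty_iff_forall_notMem]
      intro r hr
      obtain ⟨r1, r2, r3⟩ := Finset.mem_filter.1 hr
      have hr2p : r.2 ≠ p.2 := by
        rw [r2]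
        exact p3.symm
      have hr2q : r.2 ≠ q.2 := by
        rw [r2]
        exact q3.symm
      by_cases h3 : r.1 = p.1
      · have h4 := (star r r1 q q1 (by rw [h3]; exact h2) hr2q).1
        rw [h3] at h4
        exact tri p.1 q.1 u0 h4 q4 p4
      · by_cases h4 : r.1 = q.1
        · have h5 := (star r r1 p p1 (by rw [h4]; exact h2.symm) hr2p).1
          rw [h4] at h5
          exact tri q.1 p.1 u0 h5 p4 q4
        · have h5 := (star r r1 p p1 h3 hr2p).1
          have h6 := (star r r1 q q1 h4 hr2q).1
          exact c4 r.1 p.1 u0 q.1 h5 p4 (hsymm _ _ q4) (hsymm _ _ h6) r3 h2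
    have hDA : D.card + 1 ≤ A.card := by
      rw [← Finset.card_erase_add_one hu0]
      apply Nat.add_le_add_right
      have hsame : ∀ r ∈ D, r.2 = p.2 := by
        intro r hr
        by_contra hne
        have h3 := (hDint r hr p hp).resolve_right hne
        have h4 := (hDint r hr q hq).resolve_right (by rw [← h]; exact hne)
        exact h2 (h3.symm.trans h4)
      apply Finset.card_le_card_of_injOn Prod.fst
      · intro r hr
        have h3 := hD0 r hr
        exact Finset.mem_erase.2 ⟨h3.2.1, (hS r h3.1).1⟩
      · intro r hr r' hr' h'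
        exact Prod.ext h' ((hsame r hr).trans (hsame r' hr').symm)
    rw [hC1, Finset.card_empty] at hSle
    omega

end Count

/-! ### Smallest edge sets with odd degrees -/

section Smallest

variable [Fintype V] {G : SimpleGraph V} [DecidableRel G.Adj]

/-- `F` is a smallest set of edges of `G` with odd degrees. -/
structure Smallest (G : SimpleGraph V) [DecidableRel G.Adj] (F : Finset (Sym2 V)) : Prop where
  sub : F ⊆ G.edgeFinset
  odd : ∀ v, Odd (deg F v)
  min : ∀ F' ⊆ G.edgeFinset, (∀ v, Odd (deg F' v)) → F.card ≤ F'.card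

variable {F : Finset (Sym2 V)} (hF : Smallest G F)

include hF

theorem Smallest.exchange {D : Finset (Sym2 V)} (hD : D ⊆ G.edgeFinset)
    (heven : ∀ v, Even (deg D v)) : (F ∩ D).card ≤ (D \ F).card := by
  have hdis : Disjoint (F \ D) (D \ F) := by
    rw [Finset.disjoint_left]
    intro e h1 h2
    exact (Finset.mem_sdiff.1 h2).2 (Finset.mem_sdiff.1 h1).1
  have h1 : F.card ≤ ((F \ D) ∪ (D \ F)).card := by
    apply hF.min
    · exact Finset.union_subset (Finset.sdiff_subset.trans hF.sub) (Finset.sdiff_subset.trans hD)
    · intro v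
      rw [deg_disjUnion hdis]
      have h2 : deg F v = deg (F \ D) v + deg (F ∩ D) v := by
        rw [← deg_disjUnion (Finset.disjoint_sdiff_inter F D), Finset.sdiff_union_inter]
      have h3 : deg D v = deg (D \ F) v + deg (F ∩ D) v := by
        rw [Finset.inter_comm, ← deg_disjUnion (Finset.disjoint_sdiff_inter D F),
          Finset.sdiff_union_inter]
      have h4 := hF.odd v
      have h5 := heven v
      rw [h2] at h4
      rw [h3] at h5
      rw [Nat.odd_iff] at h4 ⊢
      rw [Nat.even_iff] at h5
      omega
  rw [Finset.card_union_of_disjoint hdis] at h1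
  have h2 := Finset.card_sdiff_add_card_inter F D
  omega

theorem Smallest.adj_iff (u v : V) :
    (fromEdgeSet (F : Set (Sym2 V))).Adj u v ↔ s(u, v) ∈ F := by
  rw [fromEdgeSet_adj]
  constructor
  · exact fun h => h.1
  · intro h
    exact ⟨h, ((mem_edgeFinset (G := G)).1 (hF.sub h)).ne⟩

omit hF [Fintype V] [DecidableRel G.Adj] in
theorem edges_sub {u v : V} (p : (fromEdgeSet (F : Set (Sym2 V))).Walk u v) :
    p.edges.toFinset ⊆ F := by
  intro e he
  rw [List.mem_toFinset] at he
  have := p.edges_subset_edgeSet he
  rw [edgeSet_fromEdgeSet] at this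
  exact this.1

theorem Smallest.acyclic : (fromEdgeSet (F : Set (Sym2 V))).IsAcyclic := by
  intro v p hp
  have h1 := edges_sub p
  have h2 := hF.exchange (h1.trans hF.sub) (fun x => (trail_deg hp.isTrail x).2
    (fun h => absurd rfl h))
  rw [Finset.inter_eq_right.2 h1, Finset.sdiff_eq_empty_iff_subset.2 h1, Finset.card_empty] at h2
  have h3 := hp.three_le_length
  rw [← Walk.length_edges, ← List.toFinset_card_of_nodup hp.isTrail.edges_nodup] at h3
  omega

theorem Smallest.path {u v : V} (h : (fromEdgeSet (F : Set (Sym2 V))).Reachable u v) (huv : u ≠ v) :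
    ∃ P : Finset (Sym2 V), P ⊆ F ∧ (∀ x, Even (deg P x) ↔ x ≠ u ∧ x ≠ v) ∧ 1 ≤ P.card ∧
      (P.card ≤ 1 → s(u, v) ∈ F) ∧
      ∀ e ∈ P, ∀ x ∈ e, (fromEdgeSet (F : Set (Sym2 V))).Reachable u x := by
  obtain ⟨p, hp⟩ := h.exists_isPath
  refine ⟨p.edges.toFinset, edges_sub p, ?_, ?_, ?_, ?_⟩
  · intro x
    rw [trail_deg hp.isTrail]
    exact ⟨fun h => h huv, fun h _ => h⟩
  · rw [List.toFinset_card_of_nodup hp.isTrail.edges_nodup, Walk.length_edges]
    rcases Nat.eq_zero_or_pos p.length with h1 | h1
    · exact absurd (Walk.eq_of_length_eq_zero h1) huv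
    · exact h1
  · intro h1
    rw [List.toFinset_card_of_nodup hp.isTrail.edges_nodup, Walk.length_edges] at h1
    cases p with
    | nil => exact absurd rfl huv
    | @cons _ w _ hw p =>
      rw [Walk.length_cons] at h1
      have h2 : w = v := Walk.eq_of_length_eq_zero (by omega : p.length = 0)
      subst h2
      exact (hF.adj_iff _ _).1 hw
  · intro e he x hx
    rw [List.mem_toFinset] at he
    have h1 : x ∈ p.support := by
      induction e using Sym2.ind with
      | _ a b =>
        rcases Sym2.mem_iff.1 hx with rfl | rfl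
        · exact p.fst_mem_support_of_mem_edges he
        · exact p.snd_mem_support_of_mem_edges he
    exact (p.takeUntil x h1).reachable

omit hF [Fintype V] [DecidableRel G.Adj] in
theorem deg_singleton (u v x : V) : Even (deg {s(u, v)} x) ↔ x ≠ u ∧ x ≠ v := by
  unfold deg
  rw [Finset.filter_singleton]
  by_cases h : x ∈ s(u, v)
  · rw [if_pos h, Finset.card_singleton]
    rw [Sym2.mem_iff] at h
    constructor
    · intro h1
      exact absurd h1 (by decide)
    · rintro ⟨h1, h2⟩
      rcases h with h | h
      · exact absurd h h1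
      · exact absurd h h2
  · rw [if_neg h, Finset.card_empty]
    rw [Sym2.mem_iff, not_or] at h
    exact ⟨fun _ => h, fun _ => Even.zero⟩

/-- No further edge joins two vertices of the same component. -/
theorem Smallest.inner {u v : V} (hadj : G.Adj u v)
    (h : (fromEdgeSet (F : Set (Sym2 V))).Reachable u v) : s(u, v) ∈ F := by
  by_contra hcon
  obtain ⟨P, hP1, hP2, hP3, hP4, -⟩ := hF.path h hadj.ne
  have hdis : Disjoint P {s(u, v)} := by
    rw [Finset.disjoint_singleton_right]
    exact fun h => hcon (hP1 h)
  have h1 := hF.exchange (D := P ∪ {s(u, v)})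
    (Finset.union_subset (hP1.trans hF.sub) (Finset.singleton_subset_iff.2
      (mem_edgeFinset.2 hadj))) (fun x => by
      rw [deg_disjUnion hdis, Nat.even_add, hP2, deg_singleton])
  have h2 : F ∩ (P ∪ {s(u, v)}) = P := by
    ext e
    simp only [Finset.mem_inter, Finset.mem_union, Finset.mem_singleton]
    constructor
    · rintro ⟨h3, h4 | h4⟩
      · exact h4
      · exact absurd (h4 ▸ h3) hcon
    · exact fun h3 => ⟨hP1 h3, Or.inl h3⟩
  have h3 : (P ∪ {s(u, v)}) \ F ⊆ {s(u, v)} := by
    intro e he
    simp only [Finset.mem_sdiff, Finset.mem_union] at he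
    rcases he.1 with h4 | h4
    · exact absurd (hP1 h4) he.2
    · exact h4
  have h4 := Finset.card_le_card h3
  rw [Finset.card_singleton] at h4
  rw [h2] at h1
  exact hcon (hP4 (h1.trans h4))

/-- Disjoint edges between two components. -/
theorem Smallest.cross {u u' w w' : V} (h1 : G.Adj u w) (h2 : G.Adj u' w') (hu : u ≠ u')
    (hw : w ≠ w') (hru : (fromEdgeSet (F : Set (Sym2 V))).Reachable u u')
    (hrw : (fromEdgeSet (F : Set (Sym2 V))).Reachable w w')
    (huw : ¬ (fromEdgeSet (F : Set (Sym2 V))).Reachable u w) :
    s(u, u') ∈ F ∧ s(w, w') ∈ F := by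
  obtain ⟨P, hP1, hP2, hP3, hP4, hP5⟩ := hF.path hru hu
  obtain ⟨Q, hQ1, hQ2, hQ3, hQ4, hQ5⟩ := hF.path hrw hw
  have hn1 : s(u, w) ∉ F := fun h => huw ((hF.adj_iff _ _).2 h).reachable
  have hn2 : s(u', w') ∉ F := fun h =>
    huw ((hru.trans ((hF.adj_iff _ _).2 h).reachable).trans hrw.symm)
  have huw' : u ≠ w' := by
    rintro rfl
    exact huw hrw.symm
  have hu'w : u' ≠ w := by
    rintro rfl
    exact huw hru
  have hPQ : Disjoint P Q := by
    rw [Finset.disjoint_left]
    intro e he1 he2
    induction e using Sym2.ind with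
    | _ a b =>
      exact huw ((hP5 _ he1 a (Sym2.mem_mk_left a b)).trans
        (hQ5 _ he2 a (Sym2.mem_mk_left a b)).symm)
  have hne : s(u, w) ≠ s(u', w') := by
    intro h
    rcases Sym2.eq_iff.1 h with h | h
    · exact hu h.1
    · exact huw' h.1
  have hd1 : Disjoint (P ∪ Q) {s(u, w)} := by
    rw [Finset.disjoint_singleton_right, Finset.mem_union]
    rintro (h | h)
    · exact hn1 (hP1 h)
    · exact hn1 (hQ1 h)
  have hd2 : Disjoint (P ∪ Q ∪ {s(u, w)}) {s(u', w')} := by
    rw [Finset.disjoint_singleton_right, Finset.mem_union, Finset.mem_union,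
      Finset.mem_singleton]
    rintro ((h | h) | h)
    · exact hn2 (hP1 h)
    · exact hn2 (hQ1 h)
    · exact hne h.symm
  have h3 := hF.exchange (D := P ∪ Q ∪ {s(u, w)} ∪ {s(u', w')})
    (Finset.union_subset (Finset.union_subset (Finset.union_subset (hP1.trans hF.sub)
      (hQ1.trans hF.sub)) (Finset.singleton_subset_iff.2 (mem_edgeFinset.2 h1)))
      (Finset.singleton_subset_iff.2 (mem_edgeFinset.2 h2))) (fun x => by
      rw [deg_disjUnion hd2, deg_disjUnion hd1, deg_disjUnion hPQ, Nat.even_add, Nat.even_add,
        Nat.even_add, hP2, hQ2, deg_singleton, deg_singleton]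
      rcases eq_or_ne x u with rfl | a1
      · simp [hu, h1.ne, huw']
      · rcases eq_or_ne x u' with rfl | a2
        · simp [a1, h2.ne, hu'w]
        · rcases eq_or_ne x w with rfl | a3
          · simp [a1, a2, hw]
          · rcases eq_or_ne x w' with rfl | a4
            · simp [a1, a2, a3]
            · simp [a1, a2, a3, a4])
  have h4 : P ∪ Q ⊆ F ∩ (P ∪ Q ∪ {s(u, w)} ∪ {s(u', w')}) := by
    intro e he
    rw [Finset.mem_inter]
    refine ⟨?_, Finset.mem_union_left _ (Finset.mem_union_left _ he)⟩
    rcases Finset.mem_union.1 he with h | h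
    · exact hP1 h
    · exact hQ1 h
  have h5 : (P ∪ Q ∪ {s(u, w)} ∪ {s(u', w')}) \ F ⊆ {s(u, w), s(u', w')} := by
    intro e he
    simp only [Finset.mem_sdiff, Finset.mem_union, Finset.mem_singleton] at he
    rw [Finset.mem_insert, Finset.mem_singleton]
    obtain ⟨((h | h) | h) | h, h'⟩ := he
    · exact absurd (hP1 h) h'
    · exact absurd (hQ1 h) h'
    · exact Or.inl h
    · exact Or.inr h
  have h6 := Finset.card_le_card h4
  have h7 := Finset.card_le_card h5
  rw [Finset.card_union_of_disjoint hPQ] at h6
  have h8 : ({s(u, w), s(u', w')} : Finset (Sym2 V)).card ≤ 2 := Finset.card_le_two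
  exact ⟨hP4 (by omega), hQ4 (by omega)⟩

theorem Smallest.mem_edge (e : Sym2 V) :
    e ∈ (fromEdgeSet (F : Set (Sym2 V))).edgeSet ↔ e ∈ F := by
  rw [edgeSet_fromEdgeSet]
  constructor
  · exact fun h => h.1
  · intro h
    refine ⟨h, ?_⟩
    have h1 := (mem_edgeFinset (G := G)).1 (hF.sub h)
    exact G.not_isDiag_of_mem_edgeSet h1

omit hF [DecidableRel G.Adj] [DecidableEq V] in
theorem sum_degree (H : SimpleGraph V) [DecidableRel H.Adj] (h : ∀ e, e ∈ H.edgeSet ↔ e ∈ F) :
    ∑ v, H.degree v = 2 * F.card := by
  rw [sum_degrees_eq_twice_card_edges]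
  congr 2
  ext e
  rw [mem_edgeFinset, h]

/-- There are no `4`-cycles in `F`. -/
theorem Smallest.no_square {x y z w : V} (h1 : s(x, y) ∈ F) (h2 : s(y, z) ∈ F)
    (h3 : s(z, w) ∈ F) (h4 : s(w, x) ∈ F) (h5 : x ≠ z) (h6 : y ≠ w) : False := by
  rw [← hF.adj_iff] at h1 h2 h3 h4
  have hp : (Walk.cons h1 (Walk.cons h2 Walk.nil)).IsPath := by
    simp only [Walk.cons_isPath_iff, Walk.support_cons,
      Walk.support_nil, List.mem_cons, List.not_mem_nil, or_false, not_or]
    exact ⟨⟨Walk.IsPath.nil, h2.ne⟩, h1.ne, h5⟩
  have hq : (Walk.cons h4.symm (Walk.cons h3.symm Walk.nil)).IsPath := by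
    simp only [Walk.cons_isPath_iff, Walk.support_cons,
      Walk.support_nil, List.mem_cons, List.not_mem_nil, or_false, not_or]
    exact ⟨⟨Walk.IsPath.nil, h3.ne'⟩, h4.ne', h5⟩
  have h7 := (hF.acyclic.subsingleton_path x z).elim ⟨_, hp⟩ ⟨_, hq⟩
  have h8 := congrArg Subtype.val h7
  have h9 := congrArg (fun r => Walk.getVert r 1) h8
  simp only [Walk.getVert_cons_succ, Walk.getVert_zero] at h9
  exact h6 h9

theorem Smallest.no_triangle {x y z : V} (h1 : s(x, y) ∈ F) (h2 : s(y, z) ∈ F)
    (h3 : s(x, z) ∈ F) : False := by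
  rw [← hF.adj_iff] at h1 h2 h3
  have hclique := hF.acyclic.cliqueFree (n := 3) le_rfl
  exact hclique {x, y, z} (is3Clique_triple_iff.2 ⟨h1, h3, h2⟩)

/-- **The number of edges of a smallest set with odd degrees.** -/
theorem Smallest.card_le {k : ℕ} (hreg : ∀ v, G.degree v = 2 * k + 1) [Nonempty V] :
    F.card + k + 1 ≤ Fintype.card V := by
  classical
  set H := fromEdgeSet (F : Set (Sym2 V)) with hH
  have hsumdeg := sum_degree H hF.mem_edge
  have hsum := forest_sum H hF.acyclic
  rw [hsumdeg] at hsum
  -- the other edges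
  let X : Finset (V × V) := Finset.univ.filter fun p => G.Adj p.1 p.2 ∧ s(p.1, p.2) ∉ F
  have hX : X.card + 2 * F.card = (2 * k + 1) * Fintype.card V := by
    have h1 : X.card = ∑ v, (Finset.univ.filter fun w => G.Adj v w ∧ s(v, w) ∉ F).card := by
      rw [Finset.card_eq_sum_card_fiberwise (f := Prod.fst) (t := Finset.univ)
        (fun _ _ => Finset.mem_univ _)]
      apply Finset.sum_congr rfl
      intro v _
      apply Finset.card_bij (fun p _ => p.2)
      · intro p hp
        obtain ⟨h1, h2⟩ := Finset.mem_filter.1 hp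
        have h3 := (Finset.mem_filter.1 h1).2
        rw [h2] at h3
        exact Finset.mem_filter.2 ⟨Finset.mem_univ _, h3⟩
      · intro p hp q hq h
        exact Prod.ext ((Finset.mem_filter.1 hp).2.trans (Finset.mem_filter.1 hq).2.symm) h
      · intro w hw
        exact ⟨(v, w), Finset.mem_filter.2 ⟨Finset.mem_filter.2 ⟨Finset.mem_univ _,
          (Finset.mem_filter.1 hw).2⟩, rfl⟩, rfl⟩
    have h2 : ∀ v, (Finset.univ.filter fun w => G.Adj v w ∧ s(v, w) ∉ F).card + H.degree v =
        2 * k + 1 := by
      intro v
      rw [← hreg v, ← card_neighborFinset_eq_degree, ← card_neighborFinset_eq_degree,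
        ← Finset.card_union_of_disjoint]
      · congr 1
        ext w
        rw [Finset.mem_union, Finset.mem_filter, mem_neighborFinset, mem_neighborFinset,
          hF.adj_iff]
        constructor
        · rintro (h | h)
          · exact h.2.1
          · exact (mem_edgeFinset (G := G)).1 (hF.sub h)
        · intro h
          by_cases h' : s(v, w) ∈ F
          · exact Or.inr h'
          · exact Or.inl ⟨Finset.mem_univ _, h, h'⟩
      · rw [Finset.disjoint_left]
        intro w h1 h2
        rw [mem_neighborFinset, hF.adj_iff] at h2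
        exact (Finset.mem_filter.1 h1).2.2 h2
    rw [h1, ← hsumdeg, ← Finset.sum_add_distrib,
      Finset.sum_congr rfl (fun v _ => h2 v), Finset.sum_const, Finset.card_univ, smul_eq_mul,
      mul_comm]
  -- the edges between two components
  let cm : V → H.ConnectedComponent := H.connectedComponentMk
  let sz : H.ConnectedComponent → ℕ := fun c => (Finset.univ.filter fun v => cm v = c).card
  have hsz : ∑ c, sz c = Fintype.card V :=
    (Finset.card_eq_sum_card_fiberwise (fun _ _ => Finset.mem_univ _)).symm
  have hpair : ∀ c c' : H.ConnectedComponent,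
      (X.filter fun p => (cm p.1, cm p.2) = (c, c')).card + (if c = c' then 2 * sz c else 0) ≤
      sz c + sz c' := by
    intro c c'
    by_cases hcc : c = c'
    · subst hcc
      rw [if_pos rfl]
      have : X.filter (fun p => (cm p.1, cm p.2) = (c, c)) = ∅ := by
        rw [Finset.filter_eq_empty_iff]
        intro p hp h
        have h1 := (Finset.mem_filter.1 hp).2
        have h2 : cm p.1 = cm p.2 := (congrArg Prod.fst h).trans (congrArg Prod.snd h).symm
        exact h1.2 (hF.inner h1.1 (ConnectedComponent.exact h2))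
      rw [this, Finset.card_empty]
      omega
    · rw [if_neg hcc, add_zero]
      have hmem : ∀ p ∈ X.filter (fun p => (cm p.1, cm p.2) = (c, c')),
          G.Adj p.1 p.2 ∧ cm p.1 = c ∧ cm p.2 = c' := by
        intro p hp
        obtain ⟨h1, h2⟩ := Finset.mem_filter.1 hp
        exact ⟨(Finset.mem_filter.1 h1).2.1, congrArg Prod.fst h2, congrArg Prod.snd h2⟩
      apply count_pairs _ _ _ _ (fun x y => s(x, y) ∈ F)
      · intro x y h
        rwa [Sym2.eq_swap]
      · intro x y z h1 h2 h3
        exact hF.no_triangle h1 h2 h3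
      · intro x y z w h1 h2 h3 h4 h5 h6
        exact hF.no_square h1 h2 h3 h4 h5 h6
      · intro p hp q hq h1 h2
        obtain ⟨a1, a2, a3⟩ := hmem p hp
        obtain ⟨b1, b2, b3⟩ := hmem q hq
        refine hF.cross a1 b1 h1 h2 (ConnectedComponent.exact (a2.trans b2.symm))
          (ConnectedComponent.exact (a3.trans b3.symm)) ?_
        intro h3
        apply hcc
        rw [← a2, ← a3]
        exact ConnectedComponent.sound h3
      · intro p hp
        obtain ⟨a1, a2, a3⟩ := hmem p hp
        exact ⟨Finset.mem_filter.2 ⟨Finset.mem_univ _, a2⟩,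
          Finset.mem_filter.2 ⟨Finset.mem_univ _, a3⟩⟩
  have hXle : X.card + 2 * Fintype.card V ≤
      2 * (Fintype.card H.ConnectedComponent * Fintype.card V) := by
    have h1 : X.card = ∑ c, ∑ c', (X.filter fun p => (cm p.1, cm p.2) = (c, c')).card := by
      rw [← Finset.sum_product' (f := fun c c' =>
        (X.filter fun p => (cm p.1, cm p.2) = (c, c')).card)]
      exact Finset.card_eq_sum_card_fiberwise (f := fun p : V × V => (cm p.1, cm p.2))
        (fun _ _ => Finset.mem_univ _)
    have h2 : 2 * Fintype.card V = ∑ c, ∑ c', (if c = c' then 2 * sz c else 0) := by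
      rw [← hsz, Finset.mul_sum]
      apply Finset.sum_congr rfl
      intro c _
      rw [Finset.sum_ite_eq Finset.univ c fun _ => 2 * sz c, if_pos (Finset.mem_univ c)]
    have h3 : ∑ c, ∑ c', (sz c + sz c') =
        2 * (Fintype.card H.ConnectedComponent * Fintype.card V) := by
      simp only [Finset.sum_add_distrib, Finset.sum_const, Finset.card_univ, smul_eq_mul, hsz]
      rw [← Finset.mul_sum, hsz]
      ring
    rw [h1, h2, ← h3, ← Finset.sum_add_distrib]
    apply Finset.sum_le_sum
    intro c _
    rw [← Finset.sum_add_distrib]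
    exact Finset.sum_le_sum fun c' _ => hpair c c'
  have hn : 0 < Fintype.card V := Fintype.card_pos
  have hm : 0 < Fintype.card H.ConnectedComponent :=
    Fintype.card_pos_iff.2 ⟨cm (Classical.arbitrary V)⟩
  have hk : k + 1 ≤ Fintype.card H.ConnectedComponent := by
    by_contra hcon
    push Not at hcon
    have h1 : Fintype.card H.ConnectedComponent ≤ k := by omega
    have h2 : Fintype.card H.ConnectedComponent * Fintype.card V ≤ k * Fintype.card V :=
      Nat.mul_le_mul_right _ h1
    nlinarith
  omega

end Smallest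

/-- **Every `(2k+1)`-regular graph on `n` vertices decomposes into at most `n - 1` subgraphs each
of which is 2-regular or a single edge.** -/
theorem result (k : ℕ) {V : Type*} [Fintype V] [DecidableEq V] (G : SimpleGraph V)
    [DecidableRel G.Adj] (hG : G.IsRegularOfDegree (2 * k + 1)) :
    (∃ P, IsDecomposition G P ∧ P.card ≤ Fintype.card V - 1) ∧ re G ≤ Fintype.card V - 1 := by
  classical
  have key : ∃ P, IsDecomposition G P ∧ P.card ≤ Fintype.card V - 1 := by
    rcases isEmpty_or_nonempty V with hV | hV
    · refine ⟨∅, ⟨by simp, ?_, by simp⟩, by simp⟩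
      intro e
      induction e using Sym2.ind with
      | _ a b => exact (IsEmpty.false a).elim
    have hdegG : ∀ v, deg G.edgeFinset v = 2 * k + 1 := by
      intro v
      rw [← hG v, ← card_incidenceFinset_eq_degree, incidenceFinset_eq_filter]
      rfl
    -- a smallest set with odd degrees
    obtain ⟨F, hFmem, hFmin⟩ := (G.edgeFinset.powerset.filter fun F => ∀ v, Odd (deg F v))
      |>.exists_min_image Finset.card ⟨G.edgeFinset, Finset.mem_filter.2
        ⟨Finset.mem_powerset_self _, fun v => by rw [hdegG v]; exact ⟨k, rfl⟩⟩⟩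
    have hF : Smallest G F := by
      obtain ⟨h1, h2⟩ := Finset.mem_filter.1 hFmem
      exact ⟨Finset.mem_powerset.1 h1, h2, fun F' h3 h4 => hFmin F' (Finset.mem_filter.2
        ⟨Finset.mem_powerset.2 h3, h4⟩)⟩
    have hcard := hF.card_le hG
    have hdeg : ∀ v, deg (G.edgeFinset \ F) v + deg F v = 2 * k + 1 := fun v => by
      rw [deg_sdiff hF.sub, hdegG]
    obtain ⟨C, hC1, hC2, hC3⟩ := even_decomposition k (G.edgeFinset \ F)
      (fun e he => G.not_isDiag_of_mem_edgeSet (mem_edgeFinset.1 (Finset.mem_sdiff.1 he).1))
      (fun v => by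
        have h1 := hdeg v
        have h2 := Nat.odd_iff.1 (hF.odd v)
        rw [Nat.even_iff]
        omega)
      (fun v => by
        have h1 := hdeg v
        have h2 := Nat.odd_iff.1 (hF.odd v)
        omega)
    refine ⟨((Finset.univ.image C) ∪ F.image fun e => {e}).filter Finset.Nonempty,
      ⟨?_, ?_, ?_⟩, ?_⟩
    · intro E hE
      obtain ⟨h1, h2⟩ := Finset.mem_filter.1 hE
      refine ⟨h2, ?_⟩
      rcases Finset.mem_union.1 h1 with h1 | h1
      · obtain ⟨i, -, rfl⟩ := Finset.mem_image.1 h1
        exact Or.inl (hC1 i)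
      · obtain ⟨e, -, rfl⟩ := Finset.mem_image.1 h1
        exact Or.inr (Finset.card_singleton e)
    · intro e
      constructor
      · intro he
        by_cases heF : e ∈ F
        · exact ⟨{e}, Finset.mem_filter.2 ⟨Finset.mem_union_right _
            (Finset.mem_image_of_mem _ heF), Finset.singleton_nonempty e⟩,
            Finset.mem_singleton_self e⟩
        · obtain ⟨i, hi⟩ := (hC2 e).1 (Finset.mem_sdiff.2 ⟨he, heF⟩)
          exact ⟨C i, Finset.mem_filter.2 ⟨Finset.mem_union_left _
            (Finset.mem_image_of_mem _ (Finset.mem_univ i)), ⟨e, hi⟩⟩, hi⟩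
      · rintro ⟨E, hE, he⟩
        rcases Finset.mem_union.1 (Finset.mem_filter.1 hE).1 with h1 | h1
        · obtain ⟨i, -, rfl⟩ := Finset.mem_image.1 h1
          exact (Finset.mem_sdiff.1 ((hC2 e).2 ⟨i, he⟩)).1
        · obtain ⟨e', he', rfl⟩ := Finset.mem_image.1 h1
          rw [Finset.mem_singleton.1 he]
          exact hF.sub he'
    · intro E hE E' hE' hne
      rw [Finset.disjoint_left]
      intro e h1 h2
      rcases Finset.mem_union.1 (Finset.mem_filter.1 hE).1 with h3 | h3
      · obtain ⟨i, -, rfl⟩ := Finset.mem_image.1 h3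
        rcases Finset.mem_union.1 (Finset.mem_filter.1 hE').1 with h4 | h4
        · obtain ⟨j, -, rfl⟩ := Finset.mem_image.1 h4
          have hij : i ≠ j := fun h => hne (by rw [h])
          exact Finset.disjoint_left.1 (hC3 i j hij) h1 h2
        · obtain ⟨e', he', rfl⟩ := Finset.mem_image.1 h4
          rw [Finset.mem_singleton.1 h2] at h1
          exact (Finset.mem_sdiff.1 ((hC2 e').2 ⟨i, h1⟩)).2 he'
      · obtain ⟨e', he', rfl⟩ := Finset.mem_image.1 h3
        rw [Finset.mem_singleton.1 h1] at h2
        rcases Finset.mem_union.1 (Finset.mem_filter.1 hE').1 with h4 | h4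
        · obtain ⟨j, -, rfl⟩ := Finset.mem_image.1 h4
          exact (Finset.mem_sdiff.1 ((hC2 e').2 ⟨j, h2⟩)).2 he'
        · obtain ⟨e'', -, rfl⟩ := Finset.mem_image.1 h4
          rw [Finset.mem_singleton.1 h2] at hne
          exact hne rfl
    · have h1 : (((Finset.univ.image C) ∪ F.image fun e => {e}).filter
          Finset.Nonempty).card ≤ k + F.card := by
        refine (Finset.card_filter_le _ _).trans ((Finset.card_union_le _ _).trans ?_)
        apply Nat.add_le_add
        · refine Finset.card_image_le.trans ?_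
          rw [Finset.card_univ, Fintype.card_fin]
        · exact Finset.card_image_le
      omega
  refine ⟨key, ?_⟩
  obtain ⟨P, hP, hcard⟩ := key
  exact (Nat.sInf_le ⟨P, hP, rfl⟩ : re G ≤ P.card).trans hcard

end Pool.Agent.Results.MP_b4b0f8_co.OddRegular
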